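import Pool.Agent.R313.TW.A
import Pool.Agent.R313.FN.F
import Pool.Agent.Y753.SHR.R19

set_option autoImplicit false

/-! Weighted central limit theorems with test functions of exponential growth. -/

namespace Pool.Agent.R313.TW

open Finset Filter MeasureTheory Topology ProbabilityTheory
open Pool.Agent.Y755
open Pool.Agent.Y753.NL
open Pool.Agent.Y753.SHR
open Pool.Agent.W184 (zn zn_nonneg zn_cont zn_le')
open Pool.Agent.H306R2 (aF aF_pos)

/-- the normalised logarithm -/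
noncomputable def XX (α δ t : ℝ) : ℝ := (Real.log (zn (1 / 2 + δ) t) - α * ell δ) / sg δ

lemma XX_meas {α δ : ℝ} (hδ : δ < 1 / 2) : Measurable (XX α δ) := by
  have hz : Continuous fun t => zn (1 / 2 + δ) t := by
    have := znp_cont (σ := 1 / 2 + δ) (p := 1) (by linarith) zero_le_one
    simpa using this
  unfold XX
  exact ((Real.measurable_log.comp hz.measurable).sub_const _).div_const _

lemma gau_exp (s : ℝ) : Integrable (fun x : ℝ => Real.exp (s * x)) (gaussianReal 0 1) ∧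
    ∫ x, Real.exp (s * x) ∂(gaussianReal 0 1) = Real.exp (s ^ 2 / 2) := by
  refine ⟨integrable_exp_mul_gaussianReal s, ?_⟩
  have h1 := congrFun (mgf_id_gaussianReal (μ := 0) (v := 1)) s
  simp only [mgf, id] at h1
  rw [h1]
  congr 1
  simp

/-- the general step -/
theorem gen {δ : ℝ → ℝ} (hδ : Tendsto δ atTop (𝓝 0)) (hδL : Tendsto (fun T : ℝ => δ T * Real.log T) atTop atTop)
    {D : ℝ → Set ℝ} (hD : ∀ T, D T ⊆ Set.Icc 0 T) {α c : ℝ} (h0 : 0 < α) {L : ℂ} {h k : ℕ}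
    (hR : ∀ s : ℝ, Tendsto (fun T : ℝ => (2 * δ T) ^ (α ^ 2) / T * ∫ t in D T, zn (1 / 2 + δ T) t ^ (2 * α) * Real.exp (s * XX α (δ T) t)) atTop
      (𝓝 (c * Real.exp (s ^ 2 / 2))))
    (hB1 : ∀ F : BoundedContinuousFunction ℝ ℝ, Tendsto (fun T : ℝ => (2 * δ T) ^ (α ^ 2) / T *
      ∫ t in D T, zn (1 / 2 + δ T) t ^ (2 * α) * F (XX α (δ T) t)) atTop (𝓝 (c * ∫ x, F x ∂(gaussianReal 0 1))))
    (hB2 : ∀ F : BoundedContinuousFunction ℝ ℝ, Tendsto (fun T : ℝ => (((2 * δ T) ^ (α ^ 2) / T : ℝ) : ℂ) *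
      ∫ t in D T, ((zn (1 / 2 + δ T) t ^ (2 * α) * F (XX α (δ T) t) : ℝ) : ℂ) * tw h k t) atTop
      (𝓝 (L * ((∫ x, F x ∂(gaussianReal 0 1) : ℝ) : ℂ))))
    {F : ℝ → ℝ} (hF : Continuous F) {A : ℝ} (hFA : ∀ x, |F x| ≤ A * Real.exp (A * |x|)) :
    Tendsto (fun T : ℝ => (((2 * δ T) ^ (α ^ 2) / T : ℝ) : ℂ) *
      ∫ t in D T, ((zn (1 / 2 + δ T) t ^ (2 * α) * F (XX α (δ T) t) : ℝ) : ℂ) * tw h k t) atTop
      (𝓝 (L * ((∫ x, F x ∂(gaussianReal 0 1) : ℝ) : ℂ))) := by
  have hpos : ∀ᶠ T in atTop, 0 < δ T := by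
    filter_upwards [hδL.eventually_gt_atTop 0, eventually_gt_atTop 1] with T hT hT1
    exact (pos_iff_pos_of_mul_pos hT).mpr (Real.log_pos hT1)
  have hlt : ∀ᶠ T in atTop, δ T < 1 / 2 := hδ.eventually (gt_mem_nhds (by norm_num))
  have hsg := sg_tendsto hpos hδ
  have hα : ∀ s : ℝ, ∀ᶠ T in atTop, 0 < α + s / (2 * sg (δ T)) := by
    intro s
    have h1 : Tendsto (fun T => α + s / (2 * sg (δ T))) atTop (𝓝 (α + 0)) :=
      tendsto_const_nhds.add (tendsto_const_nhds.div_atTop (hsg.const_mul_atTop (by norm_num)))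
    rw [add_zero] at h1
    exact h1.eventually (lt_mem_nhds h0)
  obtain ⟨w, hw⟩ : ∃ w : ℝ → ℝ, ∀ T, w T = (2 * δ T) ^ (α ^ 2) / T := ⟨_, fun _ => rfl⟩
  simp_rw [← hw] at hR hB1 hB2 ⊢
  have hw0 : ∀ᶠ T in atTop, 0 ≤ w T := by
    filter_upwards [hpos, eventually_gt_atTop 0] with T h1 h2
    rw [hw]; positivity
  obtain ⟨B, hB⟩ : ∃ B : ℝ, B = |A| := ⟨_, rfl⟩
  have hB0 : 0 ≤ B := by rw [hB]; exact abs_nonneg A
  obtain ⟨g, hg⟩ : ∃ g : ℝ → ℝ, ∀ x, g x = Real.exp (B * x) + Real.exp (-B * x) := ⟨_, fun _ => rfl⟩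
  have hge : g = fun x => Real.exp (B * x) + Real.exp (-B * x) := funext hg
  have hgc : Continuous g := by rw [hge]; fun_prop
  have hg1 : ∀ x, 1 ≤ g x := by
    intro x
    rw [hg]
    rcases le_total 0 x with hx | hx
    · have := Real.one_le_exp (show 0 ≤ B * x by positivity)
      have := Real.exp_pos (-B * x)
      linarith
    · have := Real.one_le_exp (show 0 ≤ -B * x by nlinarith)
      have := Real.exp_pos (B * x)
      linarith
  have hFg : ∀ x, |F x| ≤ B * g x := by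
    intro x
    refine (hFA x).trans ?_
    have h1 : A * Real.exp (A * |x|) ≤ B * Real.exp (B * |x|) := by
      have h2 : A ≤ B := by rw [hB]; exact le_abs_self A
      have h3 : Real.exp (A * |x|) ≤ Real.exp (B * |x|) := Real.exp_le_exp.mpr (mul_le_mul_of_nonneg_right h2 (abs_nonneg x))
      exact mul_le_mul h2 h3 (Real.exp_pos _).le hB0
    refine h1.trans (mul_le_mul_of_nonneg_left ?_ hB0)
    rw [hg]
    rcases abs_cases x with ⟨h2, _⟩ | ⟨h2, _⟩
    · rw [h2]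
      have := Real.exp_pos (-B * x)
      linarith
    · rw [h2]
      have h4 : B * -x = -B * x := by ring
      rw [h4]
      have := Real.exp_pos (B * x)
      linarith
  have hzc : ∀ {T : ℝ}, δ T < 1 / 2 → ∀ {r : ℝ}, 0 ≤ r → Continuous fun t => zn (1 / 2 + δ T) t ^ r := fun hT r hr =>
    znp_cont (by linarith) hr
  have hexi : ∀ s : ℝ, ∀ᶠ T in atTop, Integrable (fun t => zn (1 / 2 + δ T) t ^ (2 * α) * Real.exp (s * XX α (δ T) t))
      (volume.restrict (D T)) := by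
    intro s
    filter_upwards [hα s, hlt] with T g1 g2
    have e1 : (fun t => zn (1 / 2 + δ T) t ^ (2 * α) * Real.exp (s * XX α (δ T) t)) =
        fun t => zn (1 / 2 + δ T) t ^ (2 * (α + s / (2 * sg (δ T)))) * Real.exp (-(s * α * ell (δ T) / sg (δ T))) := by
      funext t
      exact tilt_id (l := ell (δ T)) (zn_nonneg (1 / 2 + δ T) t) h0 g1
    rw [e1]
    exact ((((hzc g2 (by positivity)).continuousOn.integrableOn_compact isCompact_Icc).mono_set (hD T))).mul_const _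
  have hgi : Integrable g (gaussianReal 0 1) := by
    rw [hge]
    exact (gau_exp B).1.add (gau_exp (-B)).1
  have main := unb3 (θ := tw h k) (tw_cont h k).measurable (fun t => (tw_norm h k t).le)
    (p := fun T t => w T * zn (1 / 2 + δ T) t ^ (2 * α)) (Y := fun T t => XX α (δ T) t) (ms := fun T => volume.restrict (D T))
    (ρ := gaussianReal 0 1) (c := c) (L := L) (by
      filter_upwards [hlt, hw0] with T g1 g2
      exact ⟨(hzc g1 (by positivity)).measurable.const_mul _, fun t => mul_nonneg g2 (Real.rpow_nonneg (zn_nonneg _ _) _)⟩) (by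
      filter_upwards [hlt] with T g1
      exact XX_meas g1) hgc hg1 (by
      filter_upwards [hexi B, hexi (-B)] with T g1 g2
      have e1 : (fun t => w T * zn (1 / 2 + δ T) t ^ (2 * α) * g (XX α (δ T) t)) = fun t =>
          w T * (zn (1 / 2 + δ T) t ^ (2 * α) * Real.exp (B * XX α (δ T) t)) +
          w T * (zn (1 / 2 + δ T) t ^ (2 * α) * Real.exp (-B * XX α (δ T) t)) := by
        funext t
        rw [hg]; ring
      rw [e1]
      exact (g1.const_mul _).add (g2.const_mul _)) hgi (by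
      have h1 := (hR B).add (hR (-B))
      have e2 : c * ∫ x, g x ∂(gaussianReal 0 1) = c * Real.exp (B ^ 2 / 2) + c * Real.exp ((-B) ^ 2 / 2) := by
        rw [hge, integral_add (gau_exp B).1 (gau_exp (-B)).1, (gau_exp B).2, (gau_exp (-B)).2]
        ring
      rw [e2]
      refine h1.congr' ?_
      filter_upwards [hexi B, hexi (-B)] with T g1 g2
      have e1 : (fun t => w T * zn (1 / 2 + δ T) t ^ (2 * α) * g (XX α (δ T) t)) = fun t =>
          w T * (zn (1 / 2 + δ T) t ^ (2 * α) * Real.exp (B * XX α (δ T) t)) +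
          w T * (zn (1 / 2 + δ T) t ^ (2 * α) * Real.exp (-B * XX α (δ T) t)) := by
        funext t
        rw [hg]; ring
      rw [e1, integral_add (g1.const_mul _) (g2.const_mul _), integral_const_mul, integral_const_mul]) (fun G => by
      refine (hB1 G).congr fun T => ?_
      rw [← integral_const_mul]
      refine integral_congr_ae (Eventually.of_forall fun t => ?_)
      simp only
      ring) (fun G => by
      refine (hB2 G).congr fun T => ?_
      rw [← integral_const_mul]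
      refine integral_congr_ae (Eventually.of_forall fun t => ?_)
      simp only
      push_cast
      ring) hF (A := B) hFg
  refine main.2.congr fun T => ?_
  rw [← integral_const_mul]
  refine integral_congr_ae (Eventually.of_forall fun t => ?_)
  simp only
  push_cast
  ring

lemma zn_za' (δ t : ℝ) : zn (1 / 2 + δ) t = za δ 0 t := zn_za δ t

/-- the whole interval, order less than four -/
theorem full_grow {δ : ℝ → ℝ} (hδ : Tendsto δ atTop (𝓝 0)) (hδL : Tendsto (fun T : ℝ => δ T * Real.log T) atTop atTop)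
    {α : ℝ} (h0 : 0 < α) (h2 : α < 2) {h k : ℕ} (hh : h ≠ 0) (hk : k ≠ 0) (hc : h.Coprime k)
    {F : ℝ → ℝ} (hF : Continuous F) {A : ℝ} (hFA : ∀ x, |F x| ≤ A * Real.exp (A * |x|)) :
    Tendsto (fun T : ℝ => (((2 * δ T) ^ (α ^ 2) / T : ℝ) : ℂ) *
      ∫ t in Set.Icc 0 T, ((zn (1 / 2 + δ T) t ^ (2 * α) * F (XX α (δ T) t) : ℝ) : ℂ) * tw h k t) atTop
      (𝓝 (((aF α * Nu α h k : ℝ) : ℂ) * ((∫ x, F x ∂(gaussianReal 0 1) : ℝ) : ℂ))) := by
  have hpos : ∀ᶠ T in atTop, 0 < δ T := by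
    filter_upwards [hδL.eventually_gt_atTop 0, eventually_gt_atTop 1] with T hT hT1
    exact (pos_iff_pos_of_mul_pos hT).mpr (Real.log_pos hT1)
  have hlt : ∀ᶠ T in atTop, δ T < 1 / 2 := hδ.eventually (gt_mem_nhds (by norm_num))
  have hsg := sg_tendsto hpos hδ
  have hc0 := aF_pos h0
  have hα : ∀ s : ℝ, ∀ᶠ T in atTop, 0 < α + s / (2 * sg (δ T)) := by
    intro s
    have h1 : Tendsto (fun T => α + s / (2 * sg (δ T))) atTop (𝓝 (α + 0)) :=
      tendsto_const_nhds.add (tendsto_const_nhds.div_atTop (hsg.const_mul_atTop (by norm_num)))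
    rw [add_zero] at h1
    exact h1.eventually (lt_mem_nhds h0)
  -- the mass
  obtain ⟨I0, hI0⟩ : ∃ I0 : ℝ → ℝ, ∀ T, I0 T = ∫ t in (0:ℝ)..T, zn (1 / 2 + δ T) t ^ (2 * α) := ⟨_, fun _ => rfl⟩
  have hmass : Tendsto (fun T : ℝ => (2 * δ T) ^ (α ^ 2) / T * I0 T) atTop (𝓝 (aF α)) := by
    have h1 := Pool.Agent.R313.FN.mass_full hδ hδL (β := 2 * α) (by positivity) (by linarith) 0
    have e1 : 2 * α / 2 = α := by ring
    rw [e1] at h1
    refine h1.congr' ?_
    filter_upwards [eventually_gt_atTop 0] with T hT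
    rw [hI0, intervalIntegral.integral_of_le hT.le, ← integral_Icc_eq_integral_Ioc]
    simp_rw [zn_za']
  have hI0n : ∀ᶠ T in atTop, I0 T ≠ 0 := by
    filter_upwards [hmass.eventually (lt_mem_nhds hc0)] with T hT h1
    rw [h1, mul_zero] at hT
    exact lt_irrefl _ hT
  have hmassC : Tendsto (fun T : ℝ => (((2 * δ T) ^ (α ^ 2) / T * I0 T : ℝ) : ℂ)) atTop (𝓝 ((aF α : ℝ) : ℂ)) :=
    (Complex.continuous_ofReal.tendsto _).comp hmass
  have hB2 : ∀ {h k : ℕ}, h ≠ 0 → k ≠ 0 → h.Coprime k → ∀ G : BoundedContinuousFunction ℝ ℝ,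
      Tendsto (fun T : ℝ => (((2 * δ T) ^ (α ^ 2) / T : ℝ) : ℂ) *
      ∫ t in Set.Icc 0 T, ((zn (1 / 2 + δ T) t ^ (2 * α) * G (XX α (δ T) t) : ℝ) : ℂ) * tw h k t) atTop
      (𝓝 (((aF α * Nu α h k : ℝ) : ℂ) * ((∫ x, G x ∂(gaussianReal 0 1) : ℝ) : ℂ))) := by
    intro h k hh hk hc G
    have h1 := hmassC.mul (tilt h0 h2 hh hk hc hδ hδL G)
    have e1 : ((aF α : ℝ) : ℂ) * ((Nu α h k * ∫ x, G x ∂(gaussianReal 0 1) : ℝ) : ℂ) =
        ((aF α * Nu α h k : ℝ) : ℂ) * ((∫ x, G x ∂(gaussianReal 0 1) : ℝ) : ℂ) := by push_cast; ring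
    rw [e1] at h1
    refine h1.congr' ?_
    filter_upwards [eventually_gt_atTop 0, hI0n] with T hT hn
    rw [← hI0, integral_Icc_eq_integral_Ioc, ← intervalIntegral.integral_of_le hT.le]
    have hn' : ((I0 T : ℝ) : ℂ) ≠ 0 := by exact_mod_cast hn
    unfold XX
    rw [Complex.ofReal_mul]
    field_simp
  have hre : ∀ {f : ℝ → ℂ} {x : ℝ} {g : ℝ → ℝ}, Tendsto f atTop (𝓝 ((x : ℝ) : ℂ)) → (∀ᶠ T in atTop, f T = ((g T : ℝ) : ℂ)) →
      Tendsto g atTop (𝓝 x) := by
    intro f x g h1 h2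
    have h3 := (Complex.continuous_re.tendsto _).comp h1
    rw [Complex.ofReal_re] at h3
    refine h3.congr' ?_
    filter_upwards [h2] with T hT
    rw [Function.comp, hT, Complex.ofReal_re]
  refine gen hδ hδL (D := fun T => Set.Icc 0 T) (fun T => subset_rfl) h0 (c := aF α) (fun s => ?_) (fun G => ?_) (hB2 hh hk hc) hF hFA
  · have h1 := hmassC.mul (ratio_path h0 h2 one_ne_zero one_ne_zero (Nat.coprime_one_left 1) hδ hδL s)
    have e1 : ((aF α : ℝ) : ℂ) * ((Real.exp (s ^ 2 / 2) * Nu α 1 1 : ℝ) : ℂ) = ((aF α * Real.exp (s ^ 2 / 2) : ℝ) : ℂ) := by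
      rw [Nu_one]; push_cast; ring
    rw [e1] at h1
    refine hre h1 ?_
    filter_upwards [eventually_gt_atTop 0, hI0n, hα s] with T hT hn g1
    have hn' : ((I0 T : ℝ) : ℂ) ≠ 0 := by exact_mod_cast hn
    have e2 : (fun t => zn (1 / 2 + δ T) t ^ (2 * α) * Real.exp (s * XX α (δ T) t)) =
        fun t => zn (1 / 2 + δ T) t ^ (2 * (α + s / (2 * sg (δ T)))) * Real.exp (-(s * α * ell (δ T) / sg (δ T))) := by
      funext t
      exact tilt_id (l := ell (δ T)) (zn_nonneg (1 / 2 + δ T) t) h0 g1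
    have e3 : ∫ t in (0:ℝ)..T, ((zn (1 / 2 + δ T) t ^ (2 * (α + s / (2 * sg (δ T)))) : ℝ) : ℂ) * tw 1 1 t =
        ((∫ t in (0:ℝ)..T, zn (1 / 2 + δ T) t ^ (2 * (α + s / (2 * sg (δ T)))) : ℝ) : ℂ) := by
      simp_rw [tw_one, mul_one]
      exact intervalIntegral.integral_ofReal
    rw [← hI0, e3, e2, integral_mul_const, integral_Icc_eq_integral_Ioc, ← intervalIntegral.integral_of_le hT.le]
    push_cast
    field_simp
  · have h1 := hB2 one_ne_zero one_ne_zero (Nat.coprime_one_left 1) G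
    have e1 : ((aF α * Nu α 1 1 : ℝ) : ℂ) * ((∫ x, G x ∂(gaussianReal 0 1) : ℝ) : ℂ) =
        ((aF α * ∫ x, G x ∂(gaussianReal 0 1) : ℝ) : ℂ) := by
      rw [Nu_one]; push_cast; ring
    rw [e1] at h1
    refine hre h1 (Eventually.of_forall fun T => ?_)
    simp_rw [tw_one, mul_one]
    rw [integral_complex_ofReal, ← Complex.ofReal_mul]

/-- order four, bounded test functions -/
theorem full_four {δ : ℝ → ℝ} (hδ : Tendsto δ atTop (𝓝 0)) (hδL : Tendsto (fun T : ℝ => δ T * Real.log T) atTop atTop)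
    {h k : ℕ} (hh : h ≠ 0) (hk : k ≠ 0) (hc : h.Coprime k) (F : BoundedContinuousFunction ℝ ℝ) :
    Tendsto (fun T : ℝ => (((2 * δ T) ^ ((2:ℝ) ^ 2) / T : ℝ) : ℂ) *
      ∫ t in Set.Icc 0 T, ((zn (1 / 2 + δ T) t ^ (2 * (2:ℝ)) * F (XX 2 (δ T) t) : ℝ) : ℂ) * tw h k t) atTop
      (𝓝 (((aF 2 * Nu 2 h k : ℝ) : ℂ) * ((∫ x, F x ∂(gaussianReal 0 1) : ℝ) : ℂ))) := by
  obtain ⟨E, hE, -, hm⟩ := tilt_small hδ hδL (le_refl (0:ℝ))
  have hE1 : ∀ T, MeasurableSet (E T) ∧ E T ⊆ Set.Icc 0 T := fun T => ⟨(hE T).1, (hE T).2.1⟩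
  have hone : Tendsto (fun T : ℝ => (2 * δ T) ^ ((2:ℝ) ^ 2) / T * ∫ t in Set.Icc 0 T \ E T, za (δ T) 0 t ^ (2 * (2:ℝ))) atTop (𝓝 (aF 2)) := by
    have h1 := hm 2 (by norm_num) (Or.inl le_rfl) 1 1 one_ne_zero one_ne_zero (Nat.coprime_one_left 1)
      (BoundedContinuousFunction.const _ 1)
    have h3 := (Complex.continuous_re.tendsto _).comp h1
    simp only [BoundedContinuousFunction.const_apply, mul_one, integral_const, smul_eq_mul, probReal_univ, Nu_one, tw_one] at h3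
    rw [Complex.ofReal_re] at h3
    refine h3.congr fun T => ?_
    simp only [Function.comp]
    rw [integral_complex_ofReal, ← Complex.ofReal_mul, Complex.ofReal_re]
    simp_rw [zn_za']
  have hsm := small_E (by norm_num) le_rfl hδ hδL hE1 0 hone
  have h5 := transfer (V := ℂ) (c := fun T => (2 * δ T) ^ ((2:ℝ) ^ 2) / T)
    (f := fun T t => ((zn (1 / 2 + δ T) t ^ (2 * (2:ℝ)) * F (XX 2 (δ T) t) : ℝ) : ℂ) * tw h k t)
    (g := fun T t => ‖F‖ * za (δ T) 0 t ^ (2 * (2:ℝ))) (E := E) (E' := fun _ => ∅)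
    (L := (((aF 2 * Nu 2 h k : ℝ) : ℂ) * ((∫ x, F x ∂(gaussianReal 0 1) : ℝ) : ℂ))) ?_ hE1
    (fun T => ⟨MeasurableSet.empty, Set.empty_subset _⟩) ?_ ?_ ?_ ?_ ?_
  · refine h5.congr fun T => ?_
    rw [Complex.real_smul, Set.sdiff_empty]
  · filter_upwards [pos_path hδL, eventually_gt_atTop 0] with T t1 t2
    positivity
  · filter_upwards [hδ.eventually (gt_mem_nhds (show (0:ℝ) < 1 / 2 by norm_num))] with T hT
    have h1 := FY_U (δ := δ T) (α0 := 2) (l := ell (δ T)) (σ := sg (δ T)) (T := T) subset_rfl (by linarith) (by norm_num) F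
    refine (h1.ofReal (𝕜 := ℂ)).mul_bdd (c := 1) (tw_cont h k).aestronglyMeasurable (Eventually.of_forall fun t => ?_)
    rw [tw_norm]
  · filter_upwards [hδ.eventually (gt_mem_nhds (show (0:ℝ) < 1 / 2 by norm_num))] with T hT
    exact (((za_cont hT 0).rpow_const fun t => Or.inr (by positivity)).continuousOn.integrableOn_compact isCompact_Icc).const_mul _
  · refine Eventually.of_forall fun T t => ?_
    rw [norm_mul, tw_norm, mul_one, Complex.norm_real, norm_mul, Real.norm_of_nonneg (Real.rpow_nonneg (zn_nonneg _ _) _), zn_za', mul_comm]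
    exact mul_le_mul_of_nonneg_right (F.norm_coe_le_norm _) (Real.rpow_nonneg (za_nonneg _ _ _) _)
  · have h1 := hm 2 (by norm_num) (Or.inl le_rfl) h k hh hk hc F
    have e1 : ((aF 2 * (Nu 2 h k * ∫ x, F x ∂(gaussianReal 0 1)) : ℝ) : ℂ) =
      ((aF 2 * Nu 2 h k : ℝ) : ℂ) * ((∫ x, F x ∂(gaussianReal 0 1) : ℝ) : ℂ) := by push_cast; ring
    rw [e1] at h1
    refine h1.congr fun T => ?_
    rw [Complex.real_smul]
    rfl
  · have h1 := hsm.const_mul ‖F‖
    rw [mul_zero] at h1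
    refine h1.congr fun T => ?_
    rw [Set.sdiff_empty, integral_const_mul]
    ring

end Pool.Agent.R313.TW
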