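import Pool.Agent.R313.TW.B

set_option autoImplicit false

/-! Weighted central limit theorems of every order, off small sets of large values. -/

namespace Pool.Agent.R313.TW

open Finset Filter MeasureTheory Topology ProbabilityTheory
open Pool.Agent.Y755
open Pool.Agent.Y753.NL
open Pool.Agent.Y753.SHR
open Pool.Agent.W184 (zn zn_nonneg zn_cont zn_le')
open Pool.Agent.H306R2 (aF aF_pos)

lemma sg_sq {δ : ℝ} (h : 0 < ell δ) : sg δ ^ 2 = ell δ / 2 := by
  unfold sg
  exact Real.sq_sqrt (by linarith)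

/-- the exponential factor -/
lemma small_factor {δ : ℝ → ℝ} (hδ : Tendsto δ atTop (𝓝 0)) (hpos : ∀ᶠ T in atTop, 0 < δ T) {κ α s : ℝ}
    (hη : 0 < (α - 2) * (α - 2 - 2 * κ)) :
    ∀ᶠ T in atTop, (2 * δ T) ^ (α ^ 2 - 4) * (δ T) ^ (-(2 + κ) * (2 * (α + s / (2 * sg (δ T))) - 4)) *
      Real.exp (-(s * α * ell (δ T) / sg (δ T))) ≤ 1 := by
  have hel := ell_tendsto hpos hδ
  have hsg := sg_tendsto hpos hδ
  obtain ⟨η, hηd⟩ : ∃ η, η = (α - 2) * (α - 2 - 2 * κ) := ⟨_, rfl⟩
  rw [← hηd] at hη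
  -- the exponent
  have hlim : Tendsto (fun T => sg (δ T) * (-(2 * η * sg (δ T)) + (2 * (2 + κ) * s - 2 * s * α)) +
      (2 + κ) * (2 * α + s / sg (δ T) - 4) * Real.log 2) atTop atBot := by
    have h1 : Tendsto (fun T => -(2 * η * sg (δ T)) + (2 * (2 + κ) * s - 2 * s * α)) atTop atBot := by
      refine tendsto_atBot_add_const_right _ _ ?_
      exact tendsto_neg_atTop_atBot.comp (hsg.const_mul_atTop (by positivity))
    have h2 : Tendsto (fun T => sg (δ T) * (-(2 * η * sg (δ T)) + (2 * (2 + κ) * s - 2 * s * α))) atTop atBot :=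
      hsg.atTop_mul_atBot₀ h1
    have h3 : Tendsto (fun T => (2 + κ) * (2 * α + s / sg (δ T) - 4) * Real.log 2) atTop
        (𝓝 ((2 + κ) * (2 * α + 0 - 4) * Real.log 2)) :=
      (((tendsto_const_nhds.add (tendsto_const_nhds.div_atTop hsg)).sub_const 4).const_mul _).mul_const _
    exact h2.atBot_add h3
  filter_upwards [hlim.eventually_le_atBot 0, hpos, hel.eventually_gt_atTop 0, hsg.eventually_gt_atTop 0] with T h1 h2 h3 h4
  have hs2 := sg_sq h3
  have hlog : Real.log (2 * δ T) = -ell (δ T) := by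
    unfold ell
    rw [one_div, Real.log_inv, neg_neg]
  have hlog2 : Real.log (δ T) = -ell (δ T) - Real.log 2 := by
    rw [← hlog, Real.log_mul (by norm_num) h2.ne']
    ring
  rw [Real.rpow_def_of_pos (by positivity), Real.rpow_def_of_pos h2, ← Real.exp_add, ← Real.exp_add, hlog, hlog2]
  refine Real.exp_le_one_iff.mpr (le_trans (le_of_eq ?_) h1)
  have hl : ell (δ T) = 2 * sg (δ T) ^ 2 := by linarith
  rw [hl, hηd]
  have h5 : sg (δ T) ≠ 0 := h4.ne'
  field_simp
  ring

/-- one point, every order, off a small set of large values, with growth -/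
theorem small_grow {δ : ℝ → ℝ} (hδ : Tendsto δ atTop (𝓝 0)) (hδL : Tendsto (fun T => δ T * Real.log T) atTop atTop)
    {κ : ℝ} (hκ : 0 ≤ κ) :
    ∃ E : ℝ → Set ℝ, (∀ T, MeasurableSet (E T) ∧ E T ⊆ Set.Icc 0 T ∧ ∀ t ∈ E T, (δ T) ^ (-(2 + κ)) < za (δ T) 0 t) ∧
      Tendsto (fun T => (volume (E T)).toReal / (T * (δ T) ^ (4 + 4 * κ))) atTop (𝓝 0) ∧
      ∀ α : ℝ, 0 < α → ∀ h k : ℕ, h ≠ 0 → k ≠ 0 → h.Coprime k → ∀ F : ℝ → ℝ, Continuous F →
        (((α ≤ 2 ∨ 2 + 2 * κ ≤ α) ∧ ∃ A : ℝ, ∀ x, |F x| ≤ A) ∨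
          ((α < 2 ∨ 2 + 2 * κ < α) ∧ ∃ A : ℝ, ∀ x, |F x| ≤ A * Real.exp (A * |x|))) →
        Tendsto (fun T => (((2 * δ T) ^ (α ^ 2) / T : ℝ) : ℂ) * ∫ t in Set.Icc 0 T \ E T,
          ((zn (1 / 2 + δ T) t ^ (2 * α) * F (XX α (δ T) t) : ℝ) : ℂ) * tw h k t) atTop
          (𝓝 (((aF α * Nu α h k : ℝ) : ℂ) * ((∫ x, F x ∂(gaussianReal 0 1) : ℝ) : ℂ))) := by
  obtain ⟨U, N, hN, hUm, hU⟩ := path_U hδ hδL
  obtain ⟨E, hEd⟩ : ∃ E : ℝ → Set ℝ, ∀ T, E T = Set.Icc 0 T \ U T := ⟨_, fun _ => rfl⟩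
  have hE : ∀ T, MeasurableSet (E T) ∧ E T ⊆ Set.Icc 0 T := fun T => by
    rw [hEd]; exact ⟨measurableSet_Icc.diff (hUm T), Set.sdiff_subset⟩
  have hEU : ∀ᶠ T in atTop, Set.Icc 0 T \ E T = U T := by
    filter_upwards [hU] with T hT
    rw [hEd, Set.sdiff_sdiff_cancel_left hT.1.2.1]
  have hone : ∀ s : ℝ, 0 < s → Tendsto (fun T : ℝ => (2 * δ T) ^ (s ^ 2) / T * ∫ t in Set.Icc 0 T \ E T, za (δ T) 0 t ^ (2 * s))
      atTop (𝓝 (aF s)) := by
    intro s hs
    refine (mass_U hδ hδL hN hU hs).congr' ?_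
    filter_upwards [hEU] with T hT
    rw [hT]
    simp_rw [zn_za]
    ring
  have h4 := small_E (by norm_num) le_rfl hδ hδL hE 0 (hone 2 (by norm_num))
  obtain ⟨E', hE', hvol, hV⟩ := shrink (κ := κ) hδ hδL hE (a := fun _ => 0) fun _ => h4
  have hE1 : ∀ T, MeasurableSet (E' T) ∧ E' T ⊆ E T := fun T => ⟨(hE' T).1, (hE' T).2.1⟩
  refine ⟨E', fun T => ⟨(hE' T).1, (hE' T).2.1.trans (hE T).2, fun t ht => ((hE' T).2.2 t ht).choose_spec⟩, hvol, ?_⟩
  intro α h0 h k hh hk hc F hF hcase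
  have hpos := pos_path hδL
  have hlt : ∀ᶠ T in atTop, δ T < 1 / 2 := hδ.eventually (gt_mem_nhds (by norm_num))
  have hsg := sg_tendsto hpos hδ
  have hα : ∀ s : ℝ, ∀ᶠ T in atTop, 0 < α + s / (2 * sg (δ T)) := by
    intro s
    have h1 : Tendsto (fun T => α + s / (2 * sg (δ T))) atTop (𝓝 (α + 0)) :=
      tendsto_const_nhds.add (tendsto_const_nhds.div_atTop (hsg.const_mul_atTop (by norm_num)))
    rw [add_zero] at h1
    exact h1.eventually (lt_mem_nhds h0)
  have hwp : ∀ᶠ T in atTop, 0 ≤ (2 * δ T) ^ (α ^ 2) / T := by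
    filter_upwards [hpos, eventually_gt_atTop 0] with T t1 t2
    positivity
  have hre : ∀ {f : ℝ → ℂ} {x : ℝ} {g : ℝ → ℝ}, Tendsto f atTop (𝓝 ((x : ℝ) : ℂ)) → (∀ᶠ T in atTop, f T = ((g T : ℝ) : ℂ)) →
      Tendsto g atTop (𝓝 x) := by
    intro f x g h1 h2
    have h3 := (Complex.continuous_re.tendsto _).comp h1
    rw [Complex.ofReal_re] at h3
    refine h3.congr' ?_
    filter_upwards [h2] with T hT
    rw [Function.comp, hT, Complex.ofReal_re]
  -- bounded test functions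
  have hbd : (α ≤ 2 ∨ 2 + 2 * κ ≤ α) → ∀ {h k : ℕ}, h ≠ 0 → k ≠ 0 → h.Coprime k → ∀ G : BoundedContinuousFunction ℝ ℝ,
      Tendsto (fun T => (((2 * δ T) ^ (α ^ 2) / T : ℝ) : ℂ) * ∫ t in Set.Icc 0 T \ E' T,
          ((zn (1 / 2 + δ T) t ^ (2 * α) * G (XX α (δ T) t) : ℝ) : ℂ) * tw h k t) atTop
          (𝓝 (((aF α * Nu α h k : ℝ) : ℂ) * ((∫ x, G x ∂(gaussianReal 0 1) : ℝ) : ℂ))) := by
    intro hcs h k hh hk hc G
    have main := tilt_mass hδ hδL hN hU h0 hh hk hc G
    have hd := diff_E hκ h0 (by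
      rcases hcs with h | h
      · left; exact h
      · right; linarith) hδ hδL hE hE1 0 (hV 0) h4 (hone _ h0)
    have hd' : Tendsto (fun T => (2 * δ T) ^ (α ^ 2) / T * ∫ t in E T \ E' T, ‖G‖ * za (δ T) 0 t ^ (2 * α)) atTop (𝓝 0) := by
      have h1 := hd.const_mul ‖G‖
      rw [mul_zero] at h1
      refine h1.congr fun T => ?_
      rw [integral_const_mul]
      ring
    have e1 : ((aF α * (Nu α h k * ∫ x, G x ∂(gaussianReal 0 1)) : ℝ) : ℂ) =
      ((aF α * Nu α h k : ℝ) : ℂ) * ((∫ x, G x ∂(gaussianReal 0 1) : ℝ) : ℂ) := by push_cast; ring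
    rw [e1] at main
    have h5 := transfer (V := ℂ) (c := fun T => (2 * δ T) ^ (α ^ 2) / T)
      (f := fun T t => ((zn (1 / 2 + δ T) t ^ (2 * α) * G (XX α (δ T) t) : ℝ) : ℂ) * tw h k t)
      (g := fun T t => ‖G‖ * za (δ T) 0 t ^ (2 * α)) (E := E) (E' := E')
      (L := (((aF α * Nu α h k : ℝ) : ℂ) * ((∫ x, G x ∂(gaussianReal 0 1) : ℝ) : ℂ))) hwp hE hE1 ?_ ?_ ?_ ?_ hd'
    · refine h5.congr fun T => ?_
      rw [Complex.real_smul]
    · filter_upwards [hlt] with T hT
      have h1 := FY_U (δ := δ T) (α0 := α) (l := ell (δ T)) (σ := sg (δ T)) (T := T) subset_rfl (by linarith) h0.le G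
      refine (h1.ofReal (𝕜 := ℂ)).mul_bdd (c := 1) (tw_cont h k).aestronglyMeasurable (Eventually.of_forall fun t => ?_)
      rw [tw_norm]
    · filter_upwards [hlt] with T hT
      exact (((za_cont hT 0).rpow_const fun t => Or.inr (by positivity)).continuousOn.integrableOn_compact isCompact_Icc).const_mul _
    · refine Eventually.of_forall fun T t => ?_
      rw [norm_mul, tw_norm, mul_one, Complex.norm_real, norm_mul, Real.norm_of_nonneg (Real.rpow_nonneg (zn_nonneg _ _) _), zn_za', mul_comm]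
      exact mul_le_mul_of_nonneg_right (G.norm_coe_le_norm _) (Real.rpow_nonneg (za_nonneg _ _ _) _)
    · refine main.congr' ?_
      filter_upwards [hEU] with T hT
      rw [hT, Complex.real_smul]
      rfl
  rcases hcase with ⟨hcs, A, hA⟩ | ⟨hcs, A, hA⟩
  · exact hbd hcs hh hk hc (BoundedContinuousFunction.ofNormedAddCommGroup F hF A (fun x => by rw [Real.norm_eq_abs]; exact hA x))
  have hcs' : α ≤ 2 ∨ 2 + 2 * κ ≤ α := by
    rcases hcs with h | h
    · left; exact h.le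
    · right; exact h.le
  -- exponential moments on `U`
  have hRU : ∀ s : ℝ, Tendsto (fun T : ℝ => (2 * δ T) ^ (α ^ 2) / T * ∫ t in U T, zn (1 / 2 + δ T) t ^ (2 * α) * Real.exp (s * XX α (δ T) t))
      atTop (𝓝 (aF α * Real.exp (s ^ 2 / 2))) := by
    intro s
    have hmU := mass_U hδ hδL hN hU h0
    have h1 := ((Complex.continuous_ofReal.tendsto _).comp hmU).mul
      (ratio_U hδ hδL hN hU h0 one_ne_zero one_ne_zero (Nat.coprime_one_left 1) s)
    have e1 : ((aF α : ℝ) : ℂ) * ((Real.exp (s ^ 2 / 2) * Nu α 1 1 : ℝ) : ℂ) = ((aF α * Real.exp (s ^ 2 / 2) : ℝ) : ℂ) := by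
      rw [Nu_one]; push_cast; ring
    rw [e1] at h1
    refine hre h1 ?_
    filter_upwards [hmU.eventually (lt_mem_nhds (aF_pos h0)), hα s] with T hT g1
    have hI : (∫ t in U T, zn (1 / 2 + δ T) t ^ (2 * α)) ≠ 0 := by
      intro h4
      rw [h4] at hT
      simp at hT
    have hI' : ((∫ t in U T, zn (1 / 2 + δ T) t ^ (2 * α) : ℝ) : ℂ) ≠ 0 := by exact_mod_cast hI
    have e2 : (fun t => zn (1 / 2 + δ T) t ^ (2 * α) * Real.exp (s * XX α (δ T) t)) =
        fun t => zn (1 / 2 + δ T) t ^ (2 * (α + s / (2 * sg (δ T)))) * Real.exp (-(s * α * ell (δ T) / sg (δ T))) := by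
      funext t
      exact tilt_id (l := ell (δ T)) (zn_nonneg (1 / 2 + δ T) t) h0 g1
    have e3 : ∫ t in U T, ((zn (1 / 2 + δ T) t ^ (2 * (α + s / (2 * sg (δ T)))) : ℝ) : ℂ) * tw 1 1 t =
        ((∫ t in U T, zn (1 / 2 + δ T) t ^ (2 * (α + s / (2 * sg (δ T)))) : ℝ) : ℂ) := by
      simp_rw [tw_one, mul_one]
      exact integral_complex_ofReal
    rw [e3, e2, integral_mul_const]
    simp only [Function.comp]
    set I := ∫ t in U T, zn (1 / 2 + δ T) t ^ (2 * α)
    push_cast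
    field_simp
  have hei : ∀ s : ℝ, ∀ᶠ T in atTop, IntegrableOn (fun t => zn (1 / 2 + δ T) t ^ (2 * α) * Real.exp (s * XX α (δ T) t)) (Set.Icc 0 T) := by
    intro s
    filter_upwards [hα s, hlt] with T g1 g2
    have e1 : (fun t => zn (1 / 2 + δ T) t ^ (2 * α) * Real.exp (s * XX α (δ T) t)) =
        fun t => zn (1 / 2 + δ T) t ^ (2 * (α + s / (2 * sg (δ T)))) * Real.exp (-(s * α * ell (δ T) / sg (δ T))) := by
      funext t
      exact tilt_id (l := ell (δ T)) (zn_nonneg (1 / 2 + δ T) t) h0 g1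
    rw [e1]
    exact (((znp_cont (by linarith) (by positivity)).continuousOn.integrableOn_compact isCompact_Icc)).mul_const _
  have hnn : ∀ (s T t : ℝ), 0 ≤ zn (1 / 2 + δ T) t ^ (2 * α) * Real.exp (s * XX α (δ T) t) := fun s T t =>
    mul_nonneg (Real.rpow_nonneg (zn_nonneg _ _) _) (Real.exp_pos _).le
  -- the difference
  have hdiff : ∀ s : ℝ, Tendsto (fun T : ℝ => (2 * δ T) ^ (α ^ 2) / T * ∫ t in E T \ E' T, zn (1 / 2 + δ T) t ^ (2 * α) *
      Real.exp (s * XX α (δ T) t)) atTop (𝓝 0) := by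
    intro s
    rcases hcs with h2 | h2
    · -- order less than four
      have hall := full_grow hδ hδL h0 h2 one_ne_zero one_ne_zero (Nat.coprime_one_left 1) (F := fun x => Real.exp (s * x))
        (by fun_prop) (A := |s| + 1) (fun x => by
          rw [abs_of_pos (Real.exp_pos _)]
          have h3 : s * x ≤ (|s| + 1) * |x| := by
            have := (le_abs_self (s * x))
            rw [abs_mul] at this
            nlinarith [abs_nonneg x]
          have h5 := Real.exp_le_exp.mpr h3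
          have h6 : 1 ≤ |s| + 1 := by have := abs_nonneg s; linarith
          nlinarith [Real.exp_pos ((|s| + 1) * |x|)])
      have e1 : (((aF α * Nu α 1 1 : ℝ) : ℂ) * ((∫ x, Real.exp (s * x) ∂(gaussianReal 0 1) : ℝ) : ℂ)) =
          ((aF α * Real.exp (s ^ 2 / 2) : ℝ) : ℂ) := by
        rw [Nu_one, (gau_exp s).2]; push_cast; ring
      rw [e1] at hall
      have h3 : Tendsto (fun T : ℝ => (2 * δ T) ^ (α ^ 2) / T * ∫ t in Set.Icc 0 T, zn (1 / 2 + δ T) t ^ (2 * α) *
          Real.exp (s * XX α (δ T) t)) atTop (𝓝 (aF α * Real.exp (s ^ 2 / 2))) := by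
        refine hre hall (Eventually.of_forall fun T => ?_)
        simp_rw [tw_one, mul_one]
        rw [integral_complex_ofReal, ← Complex.ofReal_mul]
      have h5 := h3.sub (hRU s)
      rw [sub_self] at h5
      refine squeeze_zero' ?_ ?_ h5
      · filter_upwards [hwp] with T t1
        exact mul_nonneg t1 (integral_nonneg fun t => hnn s T t)
      · filter_upwards [hwp, hEU, hei s, hU] with T t1 t2 t3 t4
        rw [← mul_sub]
        refine mul_le_mul_of_nonneg_left ?_ t1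
        have e2 : (∫ t in U T, zn (1 / 2 + δ T) t ^ (2 * α) * Real.exp (s * XX α (δ T) t)) =
          (∫ t in Set.Icc 0 T, zn (1 / 2 + δ T) t ^ (2 * α) * Real.exp (s * XX α (δ T) t)) -
            (∫ t in E T, zn (1 / 2 + δ T) t ^ (2 * α) * Real.exp (s * XX α (δ T) t)) := by
          rw [← t2]
          exact setIntegral_sdiff (μ := volume) (hE T).1 t3 (hE T).2
        rw [e2, sub_sub_cancel]
        exact setIntegral_mono_set (t3.mono_set (hE T).2) (Eventually.of_forall fun t => hnn s T t) (Set.sdiff_subset).eventuallyLE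
    · -- larger orders
      have hη : 0 < (α - 2) * (α - 2 - 2 * κ) := mul_pos (by linarith) (by linarith)
      have hfac := small_factor hδ hpos (κ := κ) (α := α) (s := s) hη
      have hsq : Tendsto (fun T : ℝ => (2 * δ T) ^ ((2:ℝ) ^ 2) / T * ∫ t in E T \ E' T, za (δ T) 0 t ^ (2 * (2:ℝ))) atTop (𝓝 0) := by
        refine squeeze_zero' ?_ ?_ h4
        · filter_upwards [hpos, eventually_gt_atTop 0] with T t1 t2
          exact mul_nonneg (by positivity) (integral_nonneg fun t => Real.rpow_nonneg (za_nonneg _ _ _) _)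
        · filter_upwards [hpos, eventually_gt_atTop 0, hlt] with T t1 t2 t3
          refine mul_le_mul_of_nonneg_left ?_ (by positivity)
          exact setIntegral_mono_set ((ic t3 0 (by norm_num)).mono_set (hE T).2)
            (Eventually.of_forall fun t => Real.rpow_nonneg (za_nonneg _ _ _) _) (Set.sdiff_subset).eventuallyLE
      have hbig : ∀ᶠ T in atTop, 0 ≤ 2 * (α + s / (2 * sg (δ T))) - 4 := by
        have h1 : Tendsto (fun T => 2 * (α + s / (2 * sg (δ T))) - 4) atTop (𝓝 (2 * (α + 0) - 4)) :=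
          ((tendsto_const_nhds.add (tendsto_const_nhds.div_atTop (hsg.const_mul_atTop (by norm_num)))).const_mul 2).sub_const 4
        exact (h1.eventually (lt_mem_nhds (by linarith))).mono fun T hT => hT.le
      refine squeeze_zero' ?_ ?_ hsq
      · filter_upwards [hwp] with T t1
        exact mul_nonneg t1 (integral_nonneg fun t => hnn s T t)
      · filter_upwards [hwp, hfac, hV 0, hpos, eventually_gt_atTop 0, hlt, hbig, hα s] with T t1 t2 t3 t4 t5 t6 t7 t8
        have hm : MeasurableSet (E T \ E' T) := (hE T).1.diff (hE1 T).1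
        have hsub : E T \ E' T ⊆ Set.Icc 0 T := Set.sdiff_subset.trans (hE T).2
        have i1 : ∫ t in E T \ E' T, zn (1 / 2 + δ T) t ^ (2 * α) * Real.exp (s * XX α (δ T) t) ≤
            ∫ t in E T \ E' T, ((δ T) ^ (-(2 + κ) * (2 * (α + s / (2 * sg (δ T))) - 4)) *
              Real.exp (-(s * α * ell (δ T) / sg (δ T)))) * za (δ T) 0 t ^ (2 * (2:ℝ)) := by
          refine setIntegral_mono_on ?_ (((ic t6 0 (by norm_num)).mono_set hsub).const_mul _) hm fun t ht => ?_
          · have e2 : (fun t => zn (1 / 2 + δ T) t ^ (2 * α) * Real.exp (s * XX α (δ T) t)) =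
              fun t => zn (1 / 2 + δ T) t ^ (2 * (α + s / (2 * sg (δ T)))) * Real.exp (-(s * α * ell (δ T) / sg (δ T))) := by
              funext t
              exact tilt_id (l := ell (δ T)) (zn_nonneg (1 / 2 + δ T) t) h0 t8
            rw [e2]
            exact (((znp_cont (by linarith) (by positivity)).continuousOn.integrableOn_compact isCompact_Icc).mono_set hsub).mul_const _
          · have e2 := tilt_id (s := s) (σ := sg (δ T)) (l := ell (δ T)) (zn_nonneg (1 / 2 + δ T) t) h0 t8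
            have e3 : zn (1 / 2 + δ T) t ^ (2 * α) * Real.exp (s * XX α (δ T) t) =
              zn (1 / 2 + δ T) t ^ (2 * (α + s / (2 * sg (δ T)))) * Real.exp (-(s * α * ell (δ T) / sg (δ T))) := e2
            rw [e3, zn_za']
            have hz := za_nonneg (δ T) 0 t
            have e4 : za (δ T) 0 t ^ (2 * (α + s / (2 * sg (δ T)))) =
              za (δ T) 0 t ^ (2 * (α + s / (2 * sg (δ T))) - 4) * za (δ T) 0 t ^ (2 * (2:ℝ)) := by
              rw [← Real.rpow_add_of_nonneg hz t7 (by norm_num)]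
              congr 1
              ring
            rw [e4]
            have h5 : za (δ T) 0 t ^ (2 * (α + s / (2 * sg (δ T))) - 4) ≤ (δ T) ^ (-(2 + κ) * (2 * (α + s / (2 * sg (δ T))) - 4)) := by
              rw [Real.rpow_mul t4.le]
              exact Real.rpow_le_rpow hz (t3 t ht) t7
            have h6 : 0 ≤ za (δ T) 0 t ^ (2 * (2:ℝ)) := Real.rpow_nonneg hz _
            have h7 := Real.exp_pos (-(s * α * ell (δ T) / sg (δ T)))
            have h8 := mul_le_mul_of_nonneg_right (mul_le_mul_of_nonneg_right h5 h6) h7.le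
            refine h8.trans (le_of_eq ?_)
            ring
        rw [integral_const_mul] at i1
        refine (mul_le_mul_of_nonneg_left i1 t1).trans ?_
        have hI : 0 ≤ ∫ t in E T \ E' T, za (δ T) 0 t ^ (2 * (2:ℝ)) := integral_nonneg fun t => Real.rpow_nonneg (za_nonneg _ _ _) _
        have e5 : (2 * δ T) ^ (α ^ 2) = (2 * δ T) ^ (α ^ 2 - 4) * (2 * δ T) ^ ((2:ℝ) ^ 2) := by
          rw [← Real.rpow_add (by positivity)]
          congr 1
          norm_num
        have e6 : (2 * δ T) ^ (α ^ 2) / T * ((δ T) ^ (-(2 + κ) * (2 * (α + s / (2 * sg (δ T))) - 4)) *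
              Real.exp (-(s * α * ell (δ T) / sg (δ T))) * ∫ t in E T \ E' T, za (δ T) 0 t ^ (2 * (2:ℝ))) =
            ((2 * δ T) ^ (α ^ 2 - 4) * (δ T) ^ (-(2 + κ) * (2 * (α + s / (2 * sg (δ T))) - 4)) *
              Real.exp (-(s * α * ell (δ T) / sg (δ T)))) *
            ((2 * δ T) ^ ((2:ℝ) ^ 2) / T * ∫ t in E T \ E' T, za (δ T) 0 t ^ (2 * (2:ℝ))) := by
          rw [e5]; ring
        rw [e6]
        exact mul_le_of_le_one_left (mul_nonneg (by positivity) hI) t2
  refine gen hδ hδL (D := fun T => Set.Icc 0 T \ E' T) (fun T => Set.sdiff_subset) h0 (c := aF α) (fun s => ?_) (fun G => ?_)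
    (hbd hcs' hh hk hc) hF hA
  · have h5 := transfer (V := ℝ) (c := fun T => (2 * δ T) ^ (α ^ 2) / T)
      (f := fun T t => zn (1 / 2 + δ T) t ^ (2 * α) * Real.exp (s * XX α (δ T) t))
      (g := fun T t => zn (1 / 2 + δ T) t ^ (2 * α) * Real.exp (s * XX α (δ T) t)) (E := E) (E' := E')
      (L := aF α * Real.exp (s ^ 2 / 2)) hwp hE hE1 (hei s) (hei s)
      (Eventually.of_forall fun T t => by rw [Real.norm_of_nonneg (hnn s T t)]) ?_ (hdiff s)
    · exact h5
    · refine (hRU s).congr' ?_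
      filter_upwards [hEU] with T hT
      rw [hT, smul_eq_mul]
  · have h1 := hbd hcs' one_ne_zero one_ne_zero (Nat.coprime_one_left 1) G
    have e1 : ((aF α * Nu α 1 1 : ℝ) : ℂ) * ((∫ x, G x ∂(gaussianReal 0 1) : ℝ) : ℂ) =
        ((aF α * ∫ x, G x ∂(gaussianReal 0 1) : ℝ) : ℂ) := by
      rw [Nu_one]; push_cast; ring
    rw [e1] at h1
    refine hre h1 (Eventually.of_forall fun T => ?_)
    simp_rw [tw_one, mul_one]
    rw [integral_complex_ofReal, ← Complex.ofReal_mul]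

end Pool.Agent.R313.TW
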